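import Pool.Agent.J6H60.KF.All

namespace Pool.Agent.Results.MP_19b7b8_co.CliqueClassesExact

open Finset Pool.Agent.J6H60.KF

private theorem five {n : ℕ} {ι : Type} [DecidableEq ι] (c : Fin n → ι)
    (T : Finset (Finset (Fin n)))
    (hclique : ∀ e : Finset (Fin n), e.card = 3 → (∀ x ∈ e, ∀ y ∈ e, c x = c y) → e ∈ T)
    (hfour : ∀ q : Finset (Fin n), q.card = 4 → 3 ≤ (q.image c).card → ∃ e ∈ T, e ⊆ q)
    (q : Finset (Fin n)) (hq : q.card = 5) : ∃ e ∈ T, e ⊆ q := by
  by_cases h3 : 3 ≤ (q.image c).card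
  · obtain ⟨i, hi, j, hj, k, hk, hij, hik, hjk⟩ := Finset.two_lt_card.mp (by omega : 2 < (q.image c).card)
    obtain ⟨x, hx, hxi⟩ := Finset.mem_image.mp hi
    obtain ⟨y, hy, hyj⟩ := Finset.mem_image.mp hj
    obtain ⟨z, hz, hzk⟩ := Finset.mem_image.mp hk
    have hsub : ({x, y, z} : Finset (Fin n)) ⊆ q := by
      intro w hw
      simp only [mem_insert, mem_singleton] at hw
      rcases hw with rfl | rfl | rfl <;> assumption
    have hle : ({x, y, z} : Finset (Fin n)).card ≤ 4 :=
      (Finset.card_le_three).trans (by norm_num)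
    obtain ⟨q', h1, h2, h4⟩ := Finset.exists_subsuperset_card_eq hsub hle (by omega : 4 ≤ q.card)
    have him : 3 ≤ (q'.image c).card := by
      have hc3 : ({i, j, k} : Finset ι).card = 3 := by
        rw [card_insert_of_notMem, card_insert_of_notMem, card_singleton] <;> simp [hij, hik, hjk]
      rw [← hc3]
      apply card_le_card
      intro w hw
      simp only [mem_insert, mem_singleton] at hw
      rw [Finset.mem_image]
      rcases hw with rfl | rfl | rfl
      · exact ⟨x, h1 (by simp), hxi⟩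
      · exact ⟨y, h1 (by simp), hyj⟩
      · exact ⟨z, h1 (by simp), hzk⟩
    obtain ⟨e, he, hes⟩ := hfour q' h4 him
    exact ⟨e, he, hes.trans h2⟩
  · push Not at h3
    have hmap : ∀ a ∈ q, c a ∈ q.image c := fun a ha => Finset.mem_image_of_mem c ha
    obtain ⟨i, _, hi⟩ := Finset.exists_lt_card_fiber_of_mul_lt_card_of_maps_to hmap
      (n := 2) (by omega : (q.image c).card * 2 < q.card)
    obtain ⟨e, he, he3⟩ := Finset.exists_subset_card_eq (by omega : 3 ≤ (q.filter (fun x => c x = i)).card)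
    refine ⟨e, hclique e he3 ?_, he.trans (Finset.filter_subset _ _)⟩
    intro x hx y hy
    have h1 := (Finset.mem_filter.mp (he hx)).2
    have h2 := (Finset.mem_filter.mp (he hy)).2
    rw [h1, h2]

/-- Turan's (5,3) problem for coverings with a partition into cliques such that every four-set
meeting at least three of the cliques contains a triple: exact for all `n ≥ 13`. -/
theorem result (n : ℕ) (hn : 13 ≤ n) (ι : Type) [DecidableEq ι] (c : Fin n → ι)
    (T : Finset (Finset (Fin n)))
    (hT : ∀ e ∈ T, e.card = 3)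
    (hclique : ∀ e : Finset (Fin n), e.card = 3 → (∀ x ∈ e, ∀ y ∈ e, c x = c y) → e ∈ T)
    (hfour : ∀ q : Finset (Fin n), q.card = 4 → 3 ≤ (q.image c).card → ∃ e ∈ T, e ⊆ q) :
    (∀ q : Finset (Fin n), q.card = 5 → ∃ e ∈ T, e ⊆ q) ∧
    (n / 2).choose 3 + ((n + 1) / 2).choose 3 ≤ T.card ∧
    (T.card = (n / 2).choose 3 + ((n + 1) / 2).choose 3 ↔
      ∃ S : Finset (Fin n), S.card = n / 2 ∧
        ∀ e : Finset (Fin n), e ∈ T ↔ e.card = 3 ∧ (e ⊆ S ∨ Disjoint e S)) := by
  refine ⟨five c T hclique hfour, ?_⟩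
  classical
  let x0 : Fin n := ⟨0, by omega⟩
  let g : ι → Fin n := fun i => if h : ∃ v, c v = i then h.choose else x0
  have hg : ∀ v, c (g (c v)) = c v := by
    intro v
    have h : ∃ w, c w = c v := ⟨v, rfl⟩
    have h1 : g (c v) = h.choose := by simp only [g, dif_pos h]
    rw [h1]
    exact h.choose_spec
  refine all n hn (fun v => g (c v)) T ⟨hT, ?_, ?_⟩
  · intro e he hm
    refine hclique e he fun x hx y hy => ?_
    have h1 := hm x hx y hy
    have h2 := congrArg c h1
    rwa [hg, hg] at h2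
  · intro q hq h3
    refine hfour q hq (h3.trans ?_)
    have h4 : q.image (fun v => g (c v)) = (q.image c).image g := by
      rw [Finset.image_image]; rfl
    rw [h4]
    exact Finset.card_image_le

end Pool.Agent.Results.MP_19b7b8_co.CliqueClassesExact
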