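import Pool.Agent.J6H51.TQ.FinD

/-!
# Turán's (5,3) problem for coverings with a division into cliques: independent four-sets in three cliques

Let `T` be a set of triples such that every five vertices contain a triple of `T`, and divide the
vertices into any number of cliques of `T`, of any sizes. If only `o(n⁴)` four-sets contain no triple
of `T` and meet exactly three of the cliques, or contain exactly one triple of `T` and meet four
cliques, then `T` has at least `(1 - o(1)) n³ / 24` triples, as Turán conjectured for all such `T`.

Outline: flags of order five for 3-graphs without a complete 3-graph on five vertices whose vertices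
are divided into unlabelled independent classes, with an integer certificate checked by the kernel.
-/

set_option autoImplicit false

open Finset Filter Topology

namespace Pool.Agent.Results.MP_19b7b8_co.CliqueFreeKinds

/-- `T` consists of 3-sets and every five vertices contain a triple of `T`. -/
def Covers {n : ℕ} (T : Finset (Finset (Fin n))) : Prop :=
  (∀ e ∈ T, e.card = 3) ∧ ∀ S : Finset (Fin n), S.card = 5 → ∃ e ∈ T, e ⊆ S

/-- `k` divides the vertices into cliques of `T`: three vertices with the same value of `k` form a
triple of `T`. -/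
def IsCliquePartition {n : ℕ} (T : Finset (Finset (Fin n))) (k : Fin n → ℕ) : Prop :=
  ∀ e : Finset (Fin n), e.card = 3 → (∀ x ∈ e, ∀ y ∈ e, k x = k y) → e ∈ T

/-- The number of the triples of `T` in `S`. -/
def triplesIn {n : ℕ} (T : Finset (Finset (Fin n))) (S : Finset (Fin n)) : ℕ :=
  (T.filter fun e => e ⊆ S).card

/-- The number of the cliques which meet `S`. -/
def cliquesMet {n : ℕ} (k : Fin n → ℕ) (S : Finset (Fin n)) : ℕ := (S.image k).card

/-- The four-sets which contain exactly one triple of `T` and meet four cliques, and those which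
contain no triple of `T` and meet exactly three cliques. -/
def bad {n : ℕ} (T : Finset (Finset (Fin n))) (k : Fin n → ℕ) : Finset (Finset (Fin n)) :=
  univ.filter fun S => S.card = 4 ∧ ((triplesIn T S = 1 ∧ cliquesMet k S = 4) ∨
    (triplesIn T S = 0 ∧ cliquesMet k S = 3))

/-- The least number of triples of a covering `T` on `n` vertices with a division `k` into cliques and
at most `d n⁴` bad four-sets. -/
noncomputable def least (n : ℕ) (d : ℝ) : ℕ :=
  sInf {m : ℕ | ∃ (T : Finset (Finset (Fin n))) (k : Fin n → ℕ), Covers T ∧ IsCliquePartition T k ∧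
    ((bad T k).card : ℝ) ≤ d * (n : ℝ) ^ 4 ∧ T.card = m}

/-- (1) `24 n |T| ≥ n⁴ - 12 n³ - 84 N` for every covering `T` with a division into cliques, where `N` is
the number of bad four-sets. (2) If `d n ≥ 0` tends to zero, then the least number of triples of such
coverings with `N ≤ d n · n⁴`, divided by `C(n,3)`, tends to `1/4`. -/
theorem result :
    (∀ (n : ℕ) (T : Finset (Finset (Fin n))) (k : Fin n → ℕ), Covers T → IsCliquePartition T k →
      n ^ 4 ≤ 24 * (n * T.card) + 12 * n ^ 3 + 84 * (bad T k).card) ∧
    ∀ d : ℕ → ℝ, (∀ n, 0 ≤ d n) → Tendsto d atTop (𝓝 0) →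
      Tendsto (fun n => (least n (d n) : ℝ) / ((n.choose 3 : ℕ) : ℝ)) atTop (𝓝 (1 / 4)) :=
  ⟨fun _ _ _ h1 h2 => Pool.Agent.J6H51.TQ.ineqD h1 h2, fun d h1 h2 =>
    Pool.Agent.J6H51.TQ.lim (bad := fun _ T k => (Pool.Agent.J6H51.TQ.kindsD T k).card) (A := 12)
      (B := 84) (fun _ _ _ g1 g2 => Pool.Agent.J6H51.TQ.ineqD g1 g2)
      Pool.Agent.J6H51.TQ.two_kindsD d h1 h2⟩

end Pool.Agent.Results.MP_19b7b8_co.CliqueFreeKinds
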