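import Pool.Agent.J6H51.TQ.FinB

/-!
# Turán's (5,3) problem for coverings with a division into cliques: lone triples

Let `T` be a set of triples such that every five vertices contain a triple of `T`, and divide the
vertices into any number of cliques of `T`, of any sizes. A four-set is bad if it contains exactly one
triple `e` of `T`, where `e` is not inside one of the cliques and the fourth vertex lies in a clique
which `e` does not meet. If only `o(n⁴)` four-sets are bad, then `T` has at least `(1 - o(1)) n³ / 24`
triples, as Turán conjectured for all such `T`.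

Outline: flags of order five for 3-graphs without a complete 3-graph on five vertices whose vertices
are divided into unlabelled independent classes, with an integer certificate checked by the kernel.
-/

set_option autoImplicit false

open Finset Filter Topology

namespace Pool.Agent.Results.MP_19b7b8_co.LoneTriples

/-- `T` consists of 3-sets and every five vertices contain a triple of `T`. -/
def Covers {n : ℕ} (T : Finset (Finset (Fin n))) : Prop :=
  (∀ e ∈ T, e.card = 3) ∧ ∀ S : Finset (Fin n), S.card = 5 → ∃ e ∈ T, e ⊆ S

/-- `k` divides the vertices into cliques of `T`: three vertices with the same value of `k` form a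
triple of `T`. -/
def IsCliquePartition {n : ℕ} (T : Finset (Finset (Fin n))) (k : Fin n → ℕ) : Prop :=
  ∀ e : Finset (Fin n), e.card = 3 → (∀ x ∈ e, ∀ y ∈ e, k x = k y) → e ∈ T

/-- The four-sets which contain exactly one triple `e` of `T`, where `e` is not inside a clique and the
fourth vertex is in a clique which does not meet `e`. -/
noncomputable def bad {n : ℕ} (T : Finset (Finset (Fin n))) (k : Fin n → ℕ) :
    Finset (Finset (Fin n)) := by
  classical
  exact univ.filter fun S => S.card = 4 ∧ ∃ e ∈ T, e ⊆ S ∧ (∀ e' ∈ T, e' ⊆ S → e' = e) ∧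
    (∃ x ∈ e, ∃ y ∈ e, k x ≠ k y) ∧ ∀ v ∈ S, v ∉ e → ∀ x ∈ e, k v ≠ k x

/-- The least number of triples of a covering `T` on `n` vertices with a division `k` into cliques and
at most `d n⁴` bad four-sets. -/
noncomputable def least (n : ℕ) (d : ℝ) : ℕ :=
  sInf {m : ℕ | ∃ (T : Finset (Finset (Fin n))) (k : Fin n → ℕ), Covers T ∧ IsCliquePartition T k ∧
    ((bad T k).card : ℝ) ≤ d * (n : ℝ) ^ 4 ∧ T.card = m}

/-- (1) `24 n |T| ≥ n⁴ - 12 n³ - 360 N` for every covering `T` with a division into cliques, where `N`
is the number of bad four-sets. (2) If `d n ≥ 0` tends to zero, then the least number of triples of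
such coverings with `N ≤ d n · n⁴`, divided by `C(n,3)`, tends to `1/4`. -/
theorem result :
    (∀ (n : ℕ) (T : Finset (Finset (Fin n))) (k : Fin n → ℕ), Covers T → IsCliquePartition T k →
      n ^ 4 ≤ 24 * (n * T.card) + 12 * n ^ 3 + 360 * (bad T k).card) ∧
    ∀ d : ℕ → ℝ, (∀ n, 0 ≤ d n) → Tendsto d atTop (𝓝 0) →
      Tendsto (fun n => (least n (d n) : ℝ) / ((n.choose 3 : ℕ) : ℝ)) atTop (𝓝 (1 / 4)) :=
  ⟨fun _ _ _ h1 h2 => Pool.Agent.J6H51.TQ.ineqB h1 h2, fun d h1 h2 =>
    Pool.Agent.J6H51.TQ.lim (bad := fun _ T k => (Pool.Agent.J6H51.TQ.kindsB T k).card) (A := 12)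
      (B := 360) (fun _ _ _ g1 g2 => Pool.Agent.J6H51.TQ.ineqB g1 g2)
      Pool.Agent.J6H51.TQ.two_kindsB d h1 h2⟩

end Pool.Agent.Results.MP_19b7b8_co.LoneTriples
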